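import Pool.Agent.helper83.OD.Spec

set_option autoImplicit false

open Finset

namespace Pool.Agent.OD

lemma FIB_two (Q : Finset ℕ) (y N : ℕ) (hy : 196 ≤ y) (hN0 : 0 < N) (hN : N ≤ 196 * y ^ 2)
    (hQ : ∀ q ∈ Q, q.Prime ∧ y < q ∧ q ∣ N) : Q.card ≤ 2 := by
  by_contra hcon
  push Not at hcon
  rw [Finset.two_lt_card] at hcon
  obtain ⟨a, ha, b, hb, c, hc, hab, hac, hbc⟩ := hcon
  obtain ⟨pa, ya, da⟩ := hQ a ha
  obtain ⟨pb, yb, db⟩ := hQ b hb
  obtain ⟨pc, yc, dc⟩ := hQ c hc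
  have cab : Nat.Coprime a b := (Nat.coprime_primes pa pb).2 hab
  have cac : Nat.Coprime a c := (Nat.coprime_primes pa pc).2 hac
  have cbc : Nat.Coprime b c := (Nat.coprime_primes pb pc).2 hbc
  have h1 : a * b ∣ N := Nat.Coprime.mul_dvd_of_dvd_of_dvd cab da db
  have h2 : a * b * c ∣ N :=
    Nat.Coprime.mul_dvd_of_dvd_of_dvd (Nat.Coprime.mul_left cac cbc) h1 dc
  have h3 : a * b * c ≤ N := Nat.le_of_dvd hN0 h2
  have h4 : y * y ≤ a * b := Nat.mul_le_mul ya.le yb.le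
  have h5 : y * y * (y + 1) ≤ a * b * c := Nat.mul_le_mul h4 yc
  have h6 : 196 * y ^ 2 ≤ y * (y * y) := by
    have : 196 * (y * y) ≤ y * (y * y) := Nat.mul_le_mul_right _ hy
    nlinarith
  nlinarith [Nat.mul_pos (by omega : 0 < y) (by omega : 0 < y)]

lemma FIB_sqrt (u y B : ℕ) (h : 16 * u ^ 2 < B) (hB : B ≤ 14 * y) : u ∈ range (Nat.sqrt y + 1) := by
  rw [Finset.mem_range, Nat.lt_succ_iff, Nat.le_sqrt]
  nlinarith

theorem FIB : FIB_stmt := by
  classical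
  intro y s hy
  by_cases hne : (Fi y s).Nonempty
  swap
  · rw [Finset.not_nonempty_iff_eq_empty] at hne
    rw [hne]; simp
  set N : ℕ := 24 * s - 1 with hNdef
  have key : ∀ M p : ℕ, (M, p) ∈ Fi y s →
      (M.Prime ∧ p.Prime ∧ y < p ∧ p ≤ 2 * y ∧ 7 * y < M ∧ M ≤ 14 * y ∧ p % 24 = 5) ∧ Rel M p s := by
    intro M p h
    simp only [Fi, P5, Finset.mem_filter, Finset.mem_product, Finset.mem_Ioc] at h
    obtain ⟨⟨⟨⟨h1, h2⟩, h3, h4⟩, ⟨h5, h6⟩, h7, h8⟩, h9⟩ := h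
    exact ⟨⟨h3, h7, h5, h6, h1, by omega, h8⟩, h9⟩
  have hs : 0 < s ∧ N ≤ 196 * y ^ 2 := by
    obtain ⟨⟨M, p⟩, hx⟩ := hne
    obtain ⟨⟨hM, hp, h1, h2, h3, h4, h5⟩, hR⟩ := key M p hx
    rcases hR with ⟨u, hu, he⟩ | ⟨u, hu, he⟩ | ⟨u, hu, he⟩
    · have hm : 0 < M - 16 * u ^ 2 := by omega
      have hs0 : 0 < s := by
        rcases Nat.eq_zero_or_pos s with h | h
        · subst h; omega
        · exact h
      refine ⟨hs0, ?_⟩
      have hN1 : N = 7 * p * (M - 16 * u ^ 2) := by omega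
      rw [hN1]
      have h6 : 7 * p ≤ 14 * y := by omega
      have h7 : M - 16 * u ^ 2 ≤ 14 * y := by omega
      calc 7 * p * (M - 16 * u ^ 2) ≤ 14 * y * (14 * y) := Nat.mul_le_mul h6 h7
        _ = 196 * y ^ 2 := by ring
    · have hm : 0 < M - 16 * u ^ 2 := by omega
      have hs0 : 0 < s := by
        rcases Nat.eq_zero_or_pos s with h | h
        · subst h; omega
        · exact h
      refine ⟨hs0, ?_⟩
      have hN1 : 7 * N = p * (M - 16 * u ^ 2) := by omega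
      have h7 : M - 16 * u ^ 2 ≤ 14 * y := by omega
      have h8 : p * (M - 16 * u ^ 2) ≤ 2 * y * (14 * y) := Nat.mul_le_mul h2 h7
      nlinarith
    · have hm : 0 < 7 * p - 16 * u ^ 2 := by omega
      have hs0 : 0 < s := by
        rcases Nat.eq_zero_or_pos s with h | h
        · subst h; omega
        · exact h
      refine ⟨hs0, ?_⟩
      have hN1 : N = (7 * p - 16 * u ^ 2) * M := by omega
      rw [hN1]
      have h6 : 7 * p - 16 * u ^ 2 ≤ 14 * y := by omega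
      calc (7 * p - 16 * u ^ 2) * M ≤ 14 * y * (14 * y) := Nat.mul_le_mul h6 h4
        _ = 196 * y ^ 2 := by ring
  obtain ⟨hs0, hN⟩ := hs
  have hN0 : 0 < N := by omega
  set Q1 : Finset ℕ := (P5 y).filter (fun p => p ∣ N) with hQ1
  set Q2 : Finset ℕ := (P5 (7 * y)).filter (fun p => p ∣ N) with hQ2
  have c1 : Q1.card ≤ 2 := by
    refine FIB_two Q1 y N hy hN0 hN ?_
    intro q hq
    simp only [hQ1, P5, Finset.mem_filter, Finset.mem_Ioc] at hq
    obtain ⟨⟨⟨h1, h2⟩, h3, h4⟩, h5⟩ := hq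
    exact ⟨h3, h1, h5⟩
  have c2 : Q2.card ≤ 2 := by
    refine FIB_two Q2 y N hy hN0 hN ?_
    intro q hq
    simp only [hQ2, P5, Finset.mem_filter, Finset.mem_Ioc] at hq
    obtain ⟨⟨⟨h1, h2⟩, h3, h4⟩, h5⟩ := hq
    exact ⟨h3, by omega, h5⟩
  set R : Finset ℕ := range (Nat.sqrt y + 1) with hR
  have hsub : Fi y s ⊆
      ((Q1 ×ˢ R).image (fun z => (N / (7 * z.1) + 16 * z.2 ^ 2, z.1))) ∪
      ((Q1 ×ˢ R).image (fun z => (7 * N / z.1 + 16 * z.2 ^ 2, z.1))) ∪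
      ((Q2 ×ˢ R).image (fun z => (z.1, (N / z.1 + 16 * z.2 ^ 2) / 7))) := by
    rintro ⟨M, p⟩ hx
    obtain ⟨⟨hM, hp, h1, h2, h3, h4, h5⟩, hRel⟩ := key M p hx
    have hmem : M ∈ P5 (7 * y) ∧ p ∈ P5 y := by
      simp only [Fi, Finset.mem_filter, Finset.mem_product] at hx
      exact hx.1
    have hp0 : 0 < p := hp.pos
    have hM0 : 0 < M := hM.pos
    rcases hRel with ⟨u, hu, he⟩ | ⟨u, hu, he⟩ | ⟨u, hu, he⟩
    · have hN1 : N = 7 * p * (M - 16 * u ^ 2) := by omega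
      have hpd : p ∣ N := ⟨7 * (M - 16 * u ^ 2), by rw [hN1]; ring⟩
      refine Finset.mem_union_left _ (Finset.mem_union_left _ (Finset.mem_image.2 ⟨(p, u), ?_, ?_⟩))
      · exact Finset.mem_product.2 ⟨Finset.mem_filter.2 ⟨hmem.2, hpd⟩, FIB_sqrt u y M hu h4⟩
      · have hd : N / (7 * p) = M - 16 * u ^ 2 := by
          rw [hN1]; exact Nat.mul_div_cancel_left _ (by omega)
        simp only [hd, Prod.mk.injEq, and_true]
        omega
    · have hN1 : 7 * N = p * (M - 16 * u ^ 2) := by omega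
      have hpd : p ∣ N := by
        have h6 : p ∣ 7 * N := ⟨_, hN1⟩
        rcases (Nat.Prime.dvd_mul hp).1 h6 with h7 | h7
        · exfalso
          have : p = 7 := (Nat.prime_dvd_prime_iff_eq hp (by norm_num)).1 h7
          omega
        · exact h7
      refine Finset.mem_union_left _ (Finset.mem_union_right _ (Finset.mem_image.2 ⟨(p, u), ?_, ?_⟩))
      · exact Finset.mem_product.2 ⟨Finset.mem_filter.2 ⟨hmem.2, hpd⟩, FIB_sqrt u y M hu h4⟩
      · have hd : 7 * N / p = M - 16 * u ^ 2 := by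
          rw [hN1]; exact Nat.mul_div_cancel_left _ hp0
        simp only [hd, Prod.mk.injEq, and_true]
        omega
    · have hN1 : N = (7 * p - 16 * u ^ 2) * M := by omega
      have hpd : M ∣ N := ⟨7 * p - 16 * u ^ 2, by rw [hN1]; ring⟩
      refine Finset.mem_union_right _ (Finset.mem_image.2 ⟨(M, u), ?_, ?_⟩)
      · exact Finset.mem_product.2 ⟨Finset.mem_filter.2 ⟨hmem.1, hpd⟩,
          FIB_sqrt u y (7 * p) hu (by omega)⟩
      · have hd : N / M = 7 * p - 16 * u ^ 2 := by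
          rw [hN1]; exact Nat.mul_div_cancel _ hM0
        simp only [hd, Prod.mk.injEq, true_and]
        have : 7 * p - 16 * u ^ 2 + 16 * u ^ 2 = 7 * p := by omega
        rw [this]
        exact Nat.mul_div_cancel_left _ (by norm_num)
  have hRc : R.card = Nat.sqrt y + 1 := by rw [hR, Finset.card_range]
  calc (Fi y s).card ≤ _ := Finset.card_le_card hsub
    _ ≤ (((Q1 ×ˢ R).image (fun z => (N / (7 * z.1) + 16 * z.2 ^ 2, z.1))) ∪
      ((Q1 ×ˢ R).image (fun z => (7 * N / z.1 + 16 * z.2 ^ 2, z.1)))).card +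
      ((Q2 ×ˢ R).image (fun z => (z.1, (N / z.1 + 16 * z.2 ^ 2) / 7))).card :=
        Finset.card_union_le _ _
    _ ≤ (((Q1 ×ˢ R).image (fun z => (N / (7 * z.1) + 16 * z.2 ^ 2, z.1))).card +
      ((Q1 ×ˢ R).image (fun z => (7 * N / z.1 + 16 * z.2 ^ 2, z.1))).card) +
      ((Q2 ×ˢ R).image (fun z => (z.1, (N / z.1 + 16 * z.2 ^ 2) / 7))).card :=
        Nat.add_le_add_right (Finset.card_union_le _ _) _
    _ ≤ ((Q1 ×ˢ R).card + (Q1 ×ˢ R).card) + (Q2 ×ˢ R).card :=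
        Nat.add_le_add (Nat.add_le_add Finset.card_image_le Finset.card_image_le)
          Finset.card_image_le
    _ = (Q1.card + Q1.card + Q2.card) * (Nat.sqrt y + 1) := by
        rw [Finset.card_product, Finset.card_product, hRc]; ring
    _ ≤ 6 * (Nat.sqrt y + 1) := Nat.mul_le_mul_right _ (by omega)

end Pool.Agent.OD
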