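import Pool.Agent.helper21.OD.SpecB

/-! WRL: the period relations. -/

namespace Pool.Agent.OD

open MvPolynomial Matrix

/-- symbols of level one are equivariant -/
theorem WRL_eq {t : ℤ} {κ : Type} [Field κ] {π : Oz t →+* κ} {j : ℕ} {φ : Sy t κ}
    (h : IsSym π j 1 (fun _ => 1) φ) (M : Mat t) (hM : IsUnit M.det) (u v : Vec t) :
    φ (M *ᵥ u) (M *ᵥ v) = act π M (φ u v) := by
  have h1 := h.equiv (Matrix.nonsingInvUnit M hM) u v (by
    rw [Nat.cast_one]
    exact one_dvd _)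
  have h2 : (Matrix.nonsingInvUnit M hM).val = M := rfl
  rw [h2] at h1
  rw [h1, one_smul]

theorem WRL_self {t : ℤ} {κ : Type} [Field κ] {π : Oz t →+* κ} {j : ℕ} {φ : Sy t κ}
    (h : IsSym π j 1 (fun _ => 1) φ) (u : Vec t) : φ u u = 0 := by
  by_cases hu : u = 0
  · rw [hu, h.zero_left]
  · have := h.add u u u hu hu hu
    exact left_eq_add.1 this.symm

theorem WRL_swap {t : ℤ} {κ : Type} [Field κ] {π : Oz t →+* κ} {j : ℕ} {φ : Sy t κ}
    (h : IsSym π j 1 (fun _ => 1) φ) (u v : Vec t) (hu : u ≠ 0) (hv : v ≠ 0) : φ v u = - φ u v := by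
  have h1 := h.add u v u hu hv hu
  rw [WRL_self h] at h1
  exact eq_neg_of_add_eq_zero_right h1

theorem WRL_cf_add {κ : Type} [Field κ] (P Q : Pol κ) (j a b : ℕ) : cf (P + Q) j a b = cf P j a b + cf Q j a b := by
  unfold cf
  rw [coeff_add]

theorem WRL_cf_neg {κ : Type} [Field κ] (P : Pol κ) (j a b : ℕ) : cf (-P) j a b = - cf P j a b := by
  unfold cf
  rw [coeff_neg]

theorem WRL_cf_zero {κ : Type} [Field κ] (j a b : ℕ) : cf (0 : Pol κ) j a b = 0 := by
  unfold cf
  rw [coeff_zero]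

theorem WRL_eps (t : ℤ) : (⟨0, 1⟩ : Oz t) * ⟨t, -1⟩ = 1 := by
  ext
  · simp
    rfl
  · simp
    rfl

theorem WRL_e1 (t : ℤ) : (![1, 0] : Vec t) ≠ 0 := by
  intro h
  have := congrFun h 0
  simp at this

theorem WRL_e2 (t : ℤ) : (![0, 1] : Vec t) ≠ 0 := by
  intro h
  have := congrFun h 1
  simp at this

theorem WRL_e3 (t : ℤ) : (![-1, 1] : Vec t) ≠ 0 := by
  intro h
  have := congrFun h 1
  simp at this

theorem WRL (hCFD : CFD_stmt) (hCFW : CFW_stmt) (hCFT : CFT_stmt) (hEXQ : EXQ_stmt) (hMAN : MAN_stmt) : WRL_stmt := by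
  intro t κ _ π j φ ht h
  set g : Pol κ := φ ![1, 0] ![0, 1] with hg
  have hhom : BiHom j g := h.hom _ _
  -- diag
  have hD : act π (dE t) g = g := by
    have h1 : IsUnit (dE t).det := by
      unfold dE
      rw [Matrix.det_fin_two_of, mul_one, mul_zero, sub_zero]
      exact IsUnit.of_mul_eq_one _ (WRL_eps t)
    rw [hg, ← WRL_eq h (dE t) h1]
    have h2 : dE t *ᵥ ![1, 0] = (⟨0, 1⟩ : Oz t) • ![1, 0] := by
      unfold dE
      funext i
      fin_cases i <;> simp [Matrix.mulVec, dotProduct]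
    have h3 : dE t *ᵥ ![0, 1] = ![0, 1] := by
      unfold dE
      funext i
      fin_cases i <;> simp [Matrix.mulVec, dotProduct]
    rw [h2, h3, h.smul_left]
    intro h0
    have := WRL_eps t
    rw [h0, zero_mul] at this
    exact zero_ne_one this
  -- w
  have hW : act π !![0, -1; 1, 0] g = -g := by
    have h1 : IsUnit (!![0, -1; 1, 0] : Mat t).det := by
      rw [Matrix.det_fin_two_of]
      simp
    rw [hg, ← WRL_eq h _ h1]
    have h2 : (!![0, -1; 1, 0] : Mat t) *ᵥ ![1, 0] = ![0, 1] := by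
      funext i
      fin_cases i <;> simp [Matrix.mulVec, dotProduct]
    have h3 : (!![0, -1; 1, 0] : Mat t) *ᵥ ![0, 1] = (-1 : Oz t) • ![1, 0] := by
      funext i
      fin_cases i <;> simp [Matrix.mulVec, dotProduct]
    rw [h2, h3, h.smul_right _ _ _ (neg_ne_zero.2 one_ne_zero), WRL_swap h _ _ (WRL_e1 t) (WRL_e2 t)]
  -- τ
  have hT : act π !![0, -1; 1, 1] g = φ ![0, 1] ![-1, 1] := by
    have h1 : IsUnit (!![0, -1; 1, 1] : Mat t).det := by
      rw [Matrix.det_fin_two_of]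
      simp
    rw [hg, ← WRL_eq h _ h1]
    have h2 : (!![0, -1; 1, 1] : Mat t) *ᵥ ![1, 0] = ![0, 1] := by
      funext i
      fin_cases i <;> simp [Matrix.mulVec, dotProduct]
    have h3 : (!![0, -1; 1, 1] : Mat t) *ᵥ ![0, 1] = ![-1, 1] := by
      funext i
      fin_cases i <;> simp [Matrix.mulVec, dotProduct]
    rw [h2, h3]
  have hT2 : act π !![-1, -1; 1, 0] g = φ ![-1, 1] ![1, 0] := by
    have h1 : IsUnit (!![-1, -1; 1, 0] : Mat t).det := by
      rw [Matrix.det_fin_two_of]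
      simp
    rw [hg, ← WRL_eq h _ h1]
    have h2 : (!![-1, -1; 1, 0] : Mat t) *ᵥ ![1, 0] = ![-1, 1] := by
      funext i
      fin_cases i <;> simp [Matrix.mulVec, dotProduct]
    have h3 : (!![-1, -1; 1, 0] : Mat t) *ᵥ ![0, 1] = (-1 : Oz t) • ![1, 0] := by
      funext i
      fin_cases i <;> simp [Matrix.mulVec, dotProduct]
    rw [h2, h3, h.smul_right _ _ _ (neg_ne_zero.2 one_ne_zero)]
  have hsum : g + act π !![0, -1; 1, 1] g + act π !![-1, -1; 1, 0] g = 0 := by
    rw [hT, hT2, hg, h.add _ _ _ (WRL_e1 t) (WRL_e2 t) (WRL_e3 t), h.add _ _ _ (WRL_e1 t) (WRL_e3 t) (WRL_e1 t),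
      WRL_self h]
  have hcast : (((if t = 0 then 4 else 6 : ℕ) : ℕ) : ℤ) = (if t = 0 then 4 else 6 : ℤ) := by
    split_ifs <;> rfl
  have heven : (2 : ℤ) ∣ (if t = 0 then 4 else 6 : ℤ) := by
    split_ifs
    · exact ⟨2, rfl⟩
    · exact ⟨3, rfl⟩
  have hdia : ∀ a b, a ≤ j → b ≤ j → ¬ ((if t = 0 then 4 else 6 : ℤ) ∣ (a : ℤ) - b) → cf g j a b = 0 :=
    hCFD t π j g hhom hD ht
  refine ⟨⟨?_, ?_, ?_⟩, ?_⟩
  · intro a b ha hb hab
    rw [hcast] at hab
    exact hdia a b ha hb hab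
  · intro a b ha hb
    have h1 := hCFW t π j g hhom a b ha hb
    rw [hW, WRL_cf_neg] at h1
    change cf g j (j - a) (j - b) = - cf g j a b
    by_cases hab : (if t = 0 then 4 else 6 : ℤ) ∣ (a : ℤ) - b
    · have h2 : Even (a + b) := by
        have h3 : (2 : ℤ) ∣ (a : ℤ) - b := heven.trans hab
        rw [Nat.even_iff]
        omega
      rw [h2.neg_one_pow, one_mul] at h1
      exact h1.symm
    · have h2 := hdia a b ha hb hab
      have h3 := hdia (j - a) (j - b) (Nat.sub_le _ _) (Nat.sub_le _ _) (by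
        intro h4
        apply hab
        rw [Nat.cast_sub ha, Nat.cast_sub hb] at h4
        have h5 := (dvd_neg).2 h4
        have h6 : -(((j : ℤ) - a) - (j - b)) = (a : ℤ) - b := by ring
        rw [h6] at h5
        exact h5)
      rw [h2, h3, neg_zero]
  · intro s s' hs hs'
    obtain ⟨h1, h2⟩ := hCFT t π j g hhom s s' hs hs'
    have h3 := congrArg (fun P => cf P j s s') hsum
    simp only [WRL_cf_add, WRL_cf_zero] at h3
    rw [h1, h2, add_assoc, ← Finset.sum_add_distrib] at h3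
    change cf g j s s' + _ = 0
    rw [← h3]
    congr 1
    refine Finset.sum_congr rfl fun a _ => ?_
    rw [← Finset.sum_add_distrib]
    refine Finset.sum_congr rfl fun b _ => ?_
    push_cast
    ring
  · intro h0
    have hg0 : g = 0 := by
      rw [(hEXQ j).1 g hhom]
      refine Finset.sum_eq_zero fun a ha => Finset.sum_eq_zero fun b hb => ?_
      rw [Finset.mem_range] at ha hb
      rw [h0 a b (by omega) (by omega), map_zero, zero_mul]
    have ht' : t = 0 ∨ t = 1 := by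
      rcases ht with h | h
      · exact Or.inl h.1
      · exact Or.inr h.1
    have hall := hMAN t ht' φ ⟨h.zero_left, h.zero_right, h.add, h.smul_left, h.smul_right⟩ ⊥ (by
      intro γ
      rw [h.equiv γ _ _ (by rw [Nat.cast_one]; exact one_dvd _), one_smul]
      change act π γ.val g ∈ ⊥
      rw [hg0, map_zero]
      exact AddSubgroup.zero_mem _)
    funext u v
    exact AddSubgroup.mem_bot.1 (hall u v)

end Pool.Agent.OD
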